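import Mathlib
import Pool.Agent.H75.GG.Targets2

/-!
# Row UN2: compactness
-/

set_option autoImplicit false

namespace Pool.Agent.H65.GG

open Finset Filter Pool.Agent.H6.NB Pool.Agent.H70.OQ Pool.Agent.H75.GS Pool.Agent.H75.GG

theorem pf_UN2 : T_UN2 := by
  intro I E A _ _ B D hB hF
  classical
  let _ : ∀ i, TopologicalSpace (A i) := fun i => ⊥
  have : ∀ i, DiscreteTopology (A i) := fun i => ⟨rfl⟩
  have : ∀ i, CompactSpace (A i) := fun i => Finite.compactSpace
  have hcl : ∀ e, IsClosed {ω : ∀ i, A i | ¬ B e ω} := by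
    intro e
    rw [← isOpen_compl_iff, isOpen_iff_mem_nhds]
    intro ω hω
    have hω' : B e ω := by
      simpa using hω
    have h1 : (⋂ i ∈ D e, {ω' : ∀ i, A i | ω' i = ω i}) ∈ nhds ω := by
      rw [Filter.biInter_finset_mem]
      intro i _
      have h2 : IsOpen ((fun ω' : ∀ i, A i => ω' i) ⁻¹' {ω i}) :=
        (isOpen_discrete _).preimage (continuous_apply i)
      exact h2.mem_nhds rfl
    filter_upwards [h1] with ω' h4
    simp only [Set.mem_iInter, Set.mem_ofPred_eq] at h4
    simp only [Set.mem_compl_iff, Set.mem_ofPred_eq, not_not]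
    exact hB e ω ω' (fun i hi => (h4 i hi).symm) hω'
  have h3 : (⋂ e, {ω : ∀ i, A i | ¬ B e ω}).Nonempty := by
    refine CompactSpace.iInter_nonempty hcl fun F => ?_
    obtain ⟨ω, hω⟩ := hF F
    exact ⟨ω, Set.mem_iInter₂.2 hω⟩
  obtain ⟨ω, hω⟩ := h3
  exact ⟨ω, fun e => Set.mem_iInter.1 hω e⟩

theorem pf_TR1 : T_TR1 := by
  intro I _ A _ w ω i f
  have hi : i ∈ ({i} : Finset I) := Finset.mem_singleton_self i
  have hu : ∀ j : ({i} : Finset I), j = ⟨i, hi⟩ := fun j => Subtype.ext (Finset.mem_singleton.1 j.2)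
  let e : (∀ j : ({i} : Finset I), A j) ≃ A i :=
    { toFun := fun τ => τ ⟨i, hi⟩
      invFun := fun a j => (hu j) ▸ a
      left_inv := fun τ => by
        funext j
        obtain rfl := hu j
        rfl
      right_inv := fun a => rfl }
  rw [← e.sum_comp]
  refine Finset.sum_congr rfl fun τ _ => ?_
  have h1 : ∏ j, w j.1 (τ j) = w i (e τ) := by
    rw [Fintype.prod_eq_single ⟨i, hi⟩ fun j hj => absurd (hu j) hj]
    rfl
  have h2 : glue {i} ω τ = Function.update ω i (e τ) := by
    funext j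
    unfold glue
    by_cases hj : j = i
    · subst hj
      rw [dif_pos hi, Function.update_self]
      rfl
    · rw [dif_neg (by simpa using hj), Function.update_of_ne hj]
  rw [h1, h2]

end Pool.Agent.H65.GG
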